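import Pool.Agent.Q188.BF.Exist

/-!
# Back-and-forth equivalent groups have elementarily equivalent universal group C*-algebras

The definitions `Win` (the game; file `Pool/Agent/Q188/BF/Norm.lean`), `Tm`, `Tm.val`, `Fm` and
`Fm.val` (continuous logic of C*-algebras; file `Pool/Agent/Q188/BF/Logic.lean`) are imported:

* `Win G H n k a b`: Duplicator wins the `n`-round game from the position with
  the `k`-tuples `a` of `G` and `b` of `H`. For `n = 0`: the same group words vanish on `a` and on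
  `b`. For `n + 1`: every finite tuple `c` of `G` (resp. `d` of `H`) has an answer of the same length
  such that Duplicator wins the `n`-round game from the extended position;
* `Fm n`, `Fm.val`: formulas of continuous logic with `n` free variables and their values.
-/

set_option autoImplicit false

namespace Pool.Agent.Results.MP_a32272_lc.UniversalAlgebras

open Pool.Agent.Q188.BF

/-- `G ≡bf_ω H`: Duplicator wins the `n`-round game for every `n`. -/
def BFEquiv (G H : Type) [Group G] [Group H] : Prop :=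
  ∀ n : ℕ, Win G H n 0 Fin.elim0 Fin.elim0

/-- `∑ x_g f(g)` -/
noncomputable def comb {G V : Type} [AddCommMonoid V] [Module ℂ V] (f : G → V) (x : G →₀ ℂ) : V :=
  x.sum fun g c => c • f g

/-- `‖π(x) ξ‖` for a unitary representation `π` of `G` on `E`, an element `x` of the group algebra
and a vector `ξ` -/
noncomputable def vecNorm {G E : Type} [Group G] [NormedAddCommGroup E] [InnerProductSpace ℂ E]
    (π : G →* (E ≃ₗᵢ[ℂ] E)) (x : G →₀ ℂ) (ξ : E) : ℝ :=
  ‖comb (fun g => π g ξ) x‖

/-- The universal norm: the supremum of the norms `‖π(x)‖`, that is, of the numbers `‖π(x) ξ‖` with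
a unitary representation `π` of `G` on a Hilbert space and a vector `ξ` with `‖ξ‖ ≤ 1`. -/
noncomputable def uNorm {G : Type} [Group G] (x : G →₀ ℂ) : ℝ :=
  sSup {r : ℝ | ∃ (E : Type) (_ : NormedAddCommGroup E) (_ : InnerProductSpace ℂ E)
    (_ : CompleteSpace E) (π : G →* (E ≃ₗᵢ[ℂ] E)) (ξ : E), ‖ξ‖ ≤ 1 ∧ r = vecNorm π x ξ}

/-- the elements `u(g)` of the algebra -/
def elt {G A : Type} [Group G] [CStarAlgebra A] (u : G →* unitary A) (g : G) : A := (u g : A)

/-- the elements `f(g)` have dense linear span -/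
def DenseSpan {G A : Type} [CStarAlgebra A] (f : G → A) : Prop :=
  Dense (Submodule.span ℂ (Set.range f) : Set A)

/-- `u : G → U(A)` makes `A` the universal group C*-algebra of `G`: the linear span of `u(G)` is
dense, and the norm of `∑ x_g u(g)` is the universal norm of `x`. -/
def IsUniversal {G A : Type} [Group G] [CStarAlgebra A] (u : G →* unitary A) : Prop :=
  DenseSpan (elt u) ∧ ∀ x : G →₀ ℂ, ‖comb (elt u) x‖ = uNorm x

/-- `A ≡ B`: all sentences of continuous logic have the same value. -/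
def ElemEquiv (A B : Type) [CStarAlgebra A] [CStarAlgebra B] : Prop :=
  ∀ φ : Fm 0, φ.val A Fin.elim0 = φ.val B Fin.elim0

theorem uNorm_eq {G : Type} [Group G] (x : G →₀ ℂ) : uNorm x = unorm x := by
  have hle : ∀ r ∈ {r : ℝ | ∃ (E : Type) (_ : NormedAddCommGroup E) (_ : InnerProductSpace ℂ E)
      (_ : CompleteSpace E) (π : G →* (E ≃ₗᵢ[ℂ] E)) (ξ : E), ‖ξ‖ ≤ 1 ∧ r = vecNorm π x ξ},
      r ≤ unorm x := by
    rintro _ ⟨E, _, _, _, π, ξ, hξ, rfl⟩
    let σ : G →* unitary (E →L[ℂ] E) :=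
      (Unitary.linearIsometryEquiv (𝕜 := ℂ) (H := E)).symm.toMonoidHom.comp π
    have h1 : vecNorm π x ξ = ‖(x.sum fun g c => c • (σ g : E →L[ℂ] E)) ξ‖ := by
      unfold vecNorm comb
      simp only [Finsupp.sum, _root_.sum_apply, _root_.smul_apply]
      rfl
    rw [h1]
    refine (ContinuousLinearMap.le_opNorm _ _).trans ?_
    calc ‖x.sum fun g c => c • (σ g : E →L[ℂ] E)‖ * ‖ξ‖
        ≤ ‖x.sum fun g c => c • (σ g : E →L[ℂ] E)‖ * 1 :=
          mul_le_mul_of_nonneg_left hξ (norm_nonneg _)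
      _ ≤ unorm x := by rw [mul_one]; exact le_unorm x σ
  have hne : {r : ℝ | ∃ (E : Type) (_ : NormedAddCommGroup E) (_ : InnerProductSpace ℂ E)
      (_ : CompleteSpace E) (π : G →* (E ≃ₗᵢ[ℂ] E)) (ξ : E), ‖ξ‖ ≤ 1 ∧
      r = vecNorm π x ξ}.Nonempty :=
    ⟨_, ℂ, inferInstance, inferInstance, inferInstance, 1, 0, by simp, rfl⟩
  refine le_antisymm (csSup_le hne hle) ?_
  refine csSup_le ⟨_, ℂ, inferInstance, inferInstance, inferInstance, 1, rfl⟩ ?_
  rintro _ ⟨E, i1, i2, i3, σ, rfl⟩
  let π : G →* (E ≃ₗᵢ[ℂ] E) := (Unitary.linearIsometryEquiv (𝕜 := ℂ) (H := E)).toMonoidHom.comp σ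
  have h1 : ∀ ξ : E, vecNorm π x ξ = ‖(x.sum fun g c => c • (σ g : E →L[ℂ] E)) ξ‖ := by
    intro ξ
    unfold vecNorm comb
    simp only [Finsupp.sum, _root_.sum_apply, _root_.smul_apply]
    rfl
  have h2 : ∀ ξ : E, ‖ξ‖ ≤ 1 → vecNorm π x ξ ≤ uNorm x := fun ξ hξ =>
    le_csSup ⟨unorm x, hle⟩ ⟨E, i1, i2, i3, π, ξ, hξ, rfl⟩
  have hpos : 0 ≤ uNorm x := (norm_nonneg _).trans (h2 0 (by simp))
  refine ContinuousLinearMap.opNorm_le_bound _ hpos fun ξ => ?_
  rcases eq_or_ne ξ 0 with rfl | hξ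
  · simp
  · have hn : 0 < ‖ξ‖ := norm_pos_iff.mpr hξ
    have h3 := h2 ((‖ξ‖⁻¹ : ℂ) • ξ) (by
      rw [norm_smul, norm_inv, Complex.norm_real, norm_norm, inv_mul_cancel₀ hn.ne'])
    rw [h1, map_smul, norm_smul, norm_inv, Complex.norm_real, norm_norm,
      inv_mul_le_iff₀ hn] at h3
    linarith [mul_comm ‖ξ‖ (uNorm x)]

theorem isUniversal_iff {G A : Type} [Group G] [CStarAlgebra A] (u : G →* unitary A) :
    IsUniversal u ↔ IsUniv u := by
  constructor
  · rintro ⟨h1, h2⟩
    exact ⟨h1, fun x => by rw [← uNorm_eq, ← h2]; rfl⟩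
  · rintro ⟨h1, h2⟩
    exact ⟨h1, fun x => by rw [uNorm_eq, ← h2]; rfl⟩

/-- **Universal group C*-algebras of back-and-forth equivalent groups are elementarily
equivalent.** The first part says that every group has a universal group C*-algebra in the sense of
`IsUniversal`. -/
theorem result :
    (∀ (G : Type) [Group G],
      ∃ (A : Type) (_ : CStarAlgebra A) (u : G →* unitary A), IsUniversal u) ∧
    ∀ (G H : Type) [Group G] [Group H], BFEquiv G H →
      ∀ (A B : Type) [CStarAlgebra A] [CStarAlgebra B] (u : G →* unitary A) (v : H →* unitary B),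
        IsUniversal u → IsUniversal v → ElemEquiv A B := by
  refine ⟨fun G _ => ?_, fun G H _ _ h A B _ _ u v hu hv φ =>
    main h u v ((isUniversal_iff u).mp hu) ((isUniversal_iff v).mp hv) φ⟩
  obtain ⟨A, i, u, hu⟩ := exists_univ G
  exact ⟨A, i, u, (isUniversal_iff u).mpr hu⟩

end Pool.Agent.Results.MP_a32272_lc.UniversalAlgebras
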